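import Mathlib

/-!
# Project KY (helper55): MP_ee0ae9_al, Demazure keys under the Henriques-Kamnitzer commutor

GOAL: a full answer (YES): for every root datum with a base, dominant weights lam, mu and every
highest weight element b (x) b_mu of B_lam (x) B_mu, the commutor image c (x) b_lam satisfies
key(c) = key(b)^(-1).  The crystals are realised by LS paths (Littelmann), written as words of
length N in the orbit of lam.

Every statement below has a complete elementary proof in its docstring.  All of them are about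
explicit finite combinatorics; nothing about crystals or Lie algebras is needed.
Later statements take the facts proved by earlier ones as hypotheses (structures ...F), so all the
jobs can be done in parallel.

NOTATION in the proofs: for a simple index `i` we write al = D.sm i, s_i = D.s (D.sm i),
<x, i> = D.ct (D.sm i) x, <x, be> = D.ct be x.
-/

namespace Pool.Agent.Q55.KY

/-- data: `R` indexes the positive roots, `I` the simple roots, `X` is the weight lattice -/
structure Dat (R I X : Type) [AddCommGroup X] where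
  /-- the positive roots -/
  rt : R → X
  /-- the coroots of the positive roots -/
  ct : R → X →ₗ[ℤ] ℤ
  /-- the simple roots as positive roots -/
  sm : I → R

namespace Dat

variable {R I X : Type} [AddCommGroup X]

/-- the reflection in the root `β` -/
def s (D : Dat R I X) (β : R) (x : X) : X := x - D.ct β x • D.rt β

/-- the facts on root systems that are used -/
structure Ax (D : Dat R I X) : Prop where
  two : ∀ β, D.ct β (D.rt β) = 2
  inj : Function.Injective D.rt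
  /-- the reflection `s γ` maps a positive root to plus or minus a positive root -/
  refl : ∀ γ β, ∃ β', (D.rt β' = D.s γ (D.rt β) ∧ ∀ x, D.ct β' x = D.ct β (D.s γ x)) ∨
    (D.rt β' = - D.s γ (D.rt β) ∧ ∀ x, D.ct β' x = - D.ct β (D.s γ x))
  /-- a simple reflection permutes the other positive roots -/
  simple : ∀ i β, β ≠ D.sm i → ∃ β', β' ≠ D.sm i ∧ D.rt β' = D.s (D.sm i) (D.rt β) ∧
    ∀ x, D.ct β' x = D.ct β (D.s (D.sm i) x)
  sign : ∀ β γ, 0 < D.ct γ (D.rt β) → 0 < D.ct β (D.rt γ)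
  negr : ∀ γ β β', D.rt β' = - D.s γ (D.rt β) → 0 < D.ct γ (D.rt β)
  pos : ∀ β β', D.rt β ≠ - D.rt β'
  /-- positive roots are sums of simple roots -/
  rtn : ∀ β, D.rt β ∈ AddSubmonoid.closure (Set.range fun i => D.rt (D.sm i))
  /-- positive coroots are sums of simple coroots -/
  ctn : ∀ β, D.ct β ∈ AddSubmonoid.closure (Set.range fun i => D.ct (D.sm i))
  ind : LinearIndependent ℤ fun i => D.rt (D.sm i)

/-- the action of the product of simple reflections given by a word -/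
def act (D : Dat R I X) : List I → X → X
  | [], x => x
  | i :: l, x => D.s (D.sm i) (D.act l x)

/-- the number of positive roots negative on `x` -/
noncomputable def ell (D : Dat R I X) (x : X) : ℕ := {β | D.ct β x < 0}.ncard

/-- the (Bruhat) order: generated by `x ≤ s β x` whenever `0 < ct β x` -/
def Le (D : Dat R I X) : X → X → Prop :=
  Relation.ReflTransGen fun x y => ∃ β, 0 < D.ct β x ∧ y = D.s β x

/-- a step of a `j/N`-chain: a cover of the order with `(j/N) * ct β x` an integer -/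
def St (D : Dat R I X) (N j : ℕ) (x y : X) : Prop :=
  ∃ β, 0 < D.ct β x ∧ y = D.s β x ∧ D.ell y = D.ell x + 1 ∧ (N : ℤ) ∣ (j : ℤ) * D.ct β x

/-- `j/N`-chains, from the smaller to the larger element -/
def Ch (D : Dat R I X) (N j : ℕ) : X → X → Prop := Relation.ReflTransGen (D.St N j)

/-- the Weyl group orbit -/
def orb (D : Dat R I X) (lam : X) : Set X := {x | ∃ l : List I, x = D.act l lam}

/-- dominant -/
def Dom (D : Dat R I X) (lam : X) : Prop := ∀ i, 0 ≤ D.ct (D.sm i) lam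

/-- `N` is positive and divisible by all the nonzero values of coroots on the orbit -/
def Adm (D : Dat R I X) (lam : X) (N : ℕ) : Prop :=
  0 < N ∧ ∀ x ∈ D.orb lam, ∀ β, D.ct β x ≠ 0 → D.ct β x ∣ (N : ℤ)

/-- LS words of shape `lam` and length `N` -/
def LS (D : Dat R I X) (lam : X) (N : ℕ) : Set (ℕ → X) :=
  {p | (∀ j, j < N → p j ∈ D.orb lam) ∧ (∀ j, N ≤ j → p j = 0) ∧
    ∀ j, j + 1 < N → D.Ch N (j + 1) (p (j + 1)) (p j)}

/-- height function along a word -/
def H (D : Dat R I X) (i : I) (p : ℕ → X) (j : ℕ) : ℤ :=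
  ∑ k ∈ Finset.range j, D.ct (D.sm i) (p k)

/-- the minimum of the height function on `0, ..., N` -/
def mn (D : Dat R I X) (i : I) (N : ℕ) (p : ℕ → X) : ℤ :=
  (Finset.range (N + 1)).inf' ⟨0, by simp⟩ (D.H i p)

/-- reflect the letters `a, ..., b-1` -/
def rf (D : Dat R I X) (i : I) (a b : ℕ) (p : ℕ → X) : ℕ → X :=
  open Classical in fun j => if a ≤ j ∧ j < b then D.s (D.sm i) (p j) else p j

/-- minimal conditions: `a` is the last minimum of the height function, `b` the first place after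
`a` where the height is at least the minimum plus `N` -/
def MC (D : Dat R I X) (i : I) (N : ℕ) (p : ℕ → X) (a b : ℕ) : Prop :=
  a < b ∧ b ≤ N ∧ D.H i p a = D.mn i N p ∧ (∀ j, a < j → j ≤ N → D.mn i N p < D.H i p j) ∧
    D.mn i N p + N ≤ D.H i p b ∧ (∀ j, a < j → j < b → D.H i p j < D.mn i N p + N)

/-- Littelmann's root operator: `F i N p q` says that `F_i p` is defined and equal to `q` -/
def F (D : Dat R I X) (i : I) (N : ℕ) (p q : ℕ → X) : Prop :=
  ∃ a b, D.MC i N p a b ∧ q = D.rf i a b p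

/-- `eps_i` -/
def eps (D : Dat R I X) (i : I) (N : ℕ) (p : ℕ → X) : ℤ := - D.mn i N p / N

/-- `phi_i` -/
def phi (D : Dat R I X) (i : I) (N : ℕ) (p : ℕ → X) : ℤ := (D.H i p N - D.mn i N p) / N

/-- the highest weight word -/
def bw (lam : X) (N : ℕ) : ℕ → X := open Classical in fun j => if j < N then lam else 0

/-- the dual word: reversed and negated -/
def dl (N : ℕ) (p : ℕ → X) : ℕ → X := open Classical in fun j => if j < N then - p (N - 1 - j) else 0

/-- reverse and apply `w` (for the longest element: the Schuetzenberger-Lusztig involution) -/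
def xi (w : X → X) (N : ℕ) (p : ℕ → X) : ℕ → X :=
  open Classical in fun j => if j < N then w (p (N - 1 - j)) else 0

/-- `F_i` on the tensor product `p (x) q`, with `p` a word of length `M`, `q` a word of length `N`;
convention: highest weight elements have the form `c (x) b_lam`, the second factor highest -/
def TF (D : Dat R I X) (i : I) (M N : ℕ) (u u' : (ℕ → X) × (ℕ → X)) : Prop :=
  (D.eps i M u.1 < D.phi i N u.2 ∧ u'.1 = u.1 ∧ D.F i N u.2 u'.2) ∨
  (D.phi i N u.2 ≤ D.eps i M u.1 ∧ D.F i M u.1 u'.1 ∧ u'.2 = u.2)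

/-- the tensor product crystal `B_mu (x) B_lam` -/
def TB (D : Dat R I X) (mu lam : X) (M N : ℕ) : Set ((ℕ → X) × (ℕ → X)) :=
  {u | u.1 ∈ D.LS mu M ∧ u.2 ∈ D.LS lam N}

/-- highest weight elements of the tensor product: not in the image of any `F_i` -/
def HW (D : Dat R I X) (mu lam : X) (M N : ℕ) (u : (ℕ → X) × (ℕ → X)) : Prop :=
  u ∈ D.TB mu lam M N ∧ ∀ i, ∀ u' ∈ D.TB mu lam M N, ¬ D.TF i M N u' u

/-- being in the same connected component of the tensor product -/
def Con (D : Dat R I X) (mu lam : X) (M N : ℕ) : (ℕ → X) × (ℕ → X) → (ℕ → X) × (ℕ → X) → Prop :=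
  Relation.EqvGen fun u u' => u ∈ D.TB mu lam M N ∧ u' ∈ D.TB mu lam M N ∧ ∃ i, D.TF i M N u u'

/-- reduced words -/
def Red (D : Dat R I X) (l : List I) : Prop :=
  ∀ l' : List I, (∀ x, D.act l' x = D.act l x) → l.length ≤ l'.length

/-- the Demazure crystal of a word `i_1 ... i_k`: all `F_{i_1}^{a_1} ... F_{i_k}^{a_k} b_lam` -/
def Dem (D : Dat R I X) (lam : X) (N : ℕ) : List I → Set (ℕ → X)
  | [] => {bw lam N}
  | i :: l => {p | ∃ p' ∈ D.Dem lam N l, Relation.ReflTransGen (D.F i N) p' p}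

/-- the word `l` represents the key of `p` -/
def Key (D : Dat R I X) (lam : X) (N : ℕ) (p : ℕ → X) (l : List I) : Prop :=
  D.Red l ∧ p ∈ D.Dem lam N l ∧
  (∀ l', D.Red l' → p ∈ D.Dem lam N l' → D.Dem lam N l ⊆ D.Dem lam N l') ∧
  ∀ l' : List I, D.act l' lam = D.act l lam → l.length ≤ l'.length

/-- the word `l` represents the longest element: it maps every positive root to a negative one -/
def Lng (D : Dat R I X) (l : List I) : Prop := ∀ β, ∃ β', D.rt β' = - D.act l (D.rt β)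


/-! ## Facts (structures) -/

/-- facts on the order -/
structure OrdF (D : Dat R I X) : Prop where
  ss : ∀ β x, D.s β (D.s β x) = x
  cts : ∀ β x, D.ct β (D.s β x) = - D.ct β x
  /-- conjugation of a reflection by a simple reflection -/
  cj : ∀ i β, β ≠ D.sm i → ∃ β', ∀ x, D.ct β' (D.s (D.sm i) x) = D.ct β x ∧
    D.s β' (D.s (D.sm i) x) = D.s (D.sm i) (D.s β x)
  mon : ∀ β x, 0 < D.ct β x → D.ell x < D.ell (D.s β x)
  up : ∀ i x, 0 < D.ct (D.sm i) x → D.ell (D.s (D.sm i) x) = D.ell x + 1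
  ant : ∀ x y, D.Le x y → x = y ∨ D.ell x < D.ell y
  z1 : ∀ i x y, D.Le x y → D.ct (D.sm i) y ≤ 0 → D.Le (D.s (D.sm i) x) y
  z2 : ∀ i x y, D.Le x y → 0 ≤ D.ct (D.sm i) x → D.Le x (D.s (D.sm i) y)
  low : ∀ lam, D.Dom lam → ∀ x ∈ D.orb lam, D.Le lam x
  dom : ∀ lam, D.Dom lam → (∀ β, 0 ≤ D.ct β lam) ∧ D.ell lam = 0

/-- facts on chains -/
structure ChnF (D : Dat R I X) : Prop where
  dvd : ∀ (N j : ℕ) x y, D.Ch N j x y → ∀ f : X →ₗ[ℤ] ℤ, (N : ℤ) ∣ (j : ℤ) * (f y - f x)
  le : ∀ N j x y, D.Ch N j x y → D.Le x y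
  st : ∀ (N j : ℕ) i x, 0 < D.ct (D.sm i) x → (N : ℤ) ∣ (j : ℤ) * D.ct (D.sm i) x →
    D.St N j x (D.s (D.sm i) x)
  int : ∀ (N j : ℕ) i x y, D.Ch N j x y → 0 < D.ct (D.sm i) x → D.ct (D.sm i) y ≤ 0 →
    (N : ℤ) ∣ (j : ℤ) * D.ct (D.sm i) x
  l1 : ∀ N j i x y, D.Ch N j x y → 0 < D.ct (D.sm i) x → 0 < D.ct (D.sm i) y →
    D.Ch N j (D.s (D.sm i) x) (D.s (D.sm i) y)
  l3 : ∀ N j i x y, D.Ch N j x y → 0 < D.ct (D.sm i) x → D.ct (D.sm i) y ≤ 0 →
    D.Ch N j (D.s (D.sm i) x) y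

/-- facts on the height function of an LS word -/
structure HntF (D : Dat R I X) (i : I) (N : ℕ) (p : ℕ → X) : Prop where
  cong : ∀ j, j < N → (N : ℤ) ∣ D.H i p j - (j : ℤ) * D.ct (D.sm i) (p j)
  top : (N : ℤ) ∣ D.H i p N
  loc : ∀ j, 0 < j → j < N → D.ct (D.sm i) (p (j - 1)) ≤ 0 → 0 ≤ D.ct (D.sm i) (p j) →
    (N : ℤ) ∣ D.H i p j
  mnd : (N : ℤ) ∣ D.mn i N p
  le0 : D.mn i N p ≤ 0
  le : ∀ j, j ≤ N → D.mn i N p ≤ D.H i p j
  att : ∃ j, j ≤ N ∧ D.H i p j = D.mn i N p

/-- strong data: what the minimal conditions imply for an LS word -/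
structure FD (D : Dat R I X) (i : I) (N : ℕ) (p : ℕ → X) (a b : ℕ) : Prop where
  ab : a < b
  bN : b ≤ N
  Ha : D.H i p a = D.mn i N p
  le : ∀ j, j ≤ N → D.mn i N p ≤ D.H i p j
  aft : ∀ j, a < j → j ≤ N → D.mn i N p < D.H i p j
  Hb : D.H i p b = D.mn i N p + N
  mid : ∀ j, a < j → j < b → D.H i p j < D.mn i N p + N
  fin : ∀ j, b ≤ j → j ≤ N → D.mn i N p + N ≤ D.H i p j
  slo : ∀ j, a ≤ j → j < b → 0 < D.ct (D.sm i) (p j)

/-- the height function of `F_i p` -/
structure PF (D : Dat R I X) (i : I) (N : ℕ) (p : ℕ → X) (a b : ℕ) : Prop where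
  h1 : ∀ j, j ≤ a → D.H i (D.rf i a b p) j = D.H i p j
  h2 : ∀ j, a ≤ j → j ≤ b → D.H i (D.rf i a b p) j = 2 * D.mn i N p - D.H i p j
  h3 : ∀ j, b ≤ j → D.H i (D.rf i a b p) j = D.H i p j - 2 * N
  m : D.mn i N (D.rf i a b p) = D.mn i N p - N

/-- the crystal facts for `B_lam` (LS words of length `N`) -/
structure CryF (D : Dat R I X) (lam : X) (N : ℕ) : Prop where
  dvm : ∀ i, ∀ p ∈ D.LS lam N, (N : ℤ) ∣ D.mn i N p
  dvh : ∀ i, ∀ p ∈ D.LS lam N, (N : ℤ) ∣ D.H i p N
  le0 : ∀ i, ∀ p ∈ D.LS lam N, D.mn i N p ≤ 0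
  leh : ∀ i, ∀ p ∈ D.LS lam N, D.mn i N p ≤ D.H i p N
  fst : ∀ i, ∀ p ∈ D.LS lam N, D.mn i N p = 0 → 0 ≤ D.ct (D.sm i) (p 0)
  lst : ∀ i, ∀ p ∈ D.LS lam N, D.H i p N = D.mn i N p → D.ct (D.sm i) (p (N - 1)) ≤ 0
  ex : ∀ i, ∀ p ∈ D.LS lam N, D.mn i N p + N ≤ D.H i p N → ∃ q, D.F i N p q
  fd : ∀ i, ∀ p ∈ D.LS lam N, ∀ q, D.F i N p q → ∃ a b, D.FD i N p a b ∧ q = D.rf i a b p
  mem : ∀ i, ∀ p ∈ D.LS lam N, ∀ q, D.F i N p q → q ∈ D.LS lam N
  mq : ∀ i, ∀ p ∈ D.LS lam N, ∀ q, D.F i N p q → D.mn i N q = D.mn i N p - N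
  hq : ∀ i, ∀ p ∈ D.LS lam N, ∀ q, D.F i N p q → D.H i q N = D.H i p N - 2 * N
  lt : ∀ i, ∀ p ∈ D.LS lam N, ∀ q, D.F i N p q → D.mn i N p + N ≤ D.H i p N
  f0 : ∀ i, ∀ p ∈ D.LS lam N, ∀ q, D.F i N p q → q 0 = p 0 ∨
    (D.mn i N p = 0 ∧ 0 < D.ct (D.sm i) (p 0) ∧ q 0 = D.s (D.sm i) (p 0))
  fN : ∀ i, ∀ p ∈ D.LS lam N, ∀ q, D.F i N p q → q (N - 1) = p (N - 1) ∨
    (D.H i p N = D.mn i N p + N ∧ 0 < D.ct (D.sm i) (p (N - 1)) ∧
      q (N - 1) = D.s (D.sm i) (p (N - 1)))
  inc : ∀ i, ∀ p ∈ D.LS lam N, ∀ q, D.F i N p q →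
    ∑ k ∈ Finset.range N, D.ell (p k) < ∑ k ∈ Finset.range N, D.ell (q k)

/-- duality facts -/
structure DuaF (D : Dat R I X) (lam : X) (N : ℕ) : Prop where
  adm : D.Adm (-lam) N
  ls : ∀ p ∈ D.LS lam N, dl N p ∈ D.LS (-lam) N
  dd : ∀ p ∈ D.LS lam N, dl N (dl N p) = p
  hd : ∀ i p j, j ≤ N → D.H i (dl N p) j = D.H i p (N - j) - D.H i p N
  md : ∀ i p, D.mn i N (dl N p) = D.mn i N p - D.H i p N

/-- duality of the root operators, and existence of preimages -/
structure Cr2F (D : Dat R I X) (lam : X) (N : ℕ) : Prop where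
  dual : ∀ i, ∀ p ∈ D.LS lam N, ∀ q, D.F i N p q → D.F i N (dl N q) (dl N p)
  pre : ∀ i, ∀ p ∈ D.LS lam N, D.mn i N p < 0 → ∃ q ∈ D.LS lam N, D.F i N q p

/-- facts on words, part 1 -/
structure LenF (D : Dat R I X) : Prop where
  app : ∀ l l' x, D.act (l ++ l') x = D.act l (D.act l' x)
  rev : ∀ l x, D.act l.reverse (D.act l x) = x
  rev' : ∀ l x, D.act l (D.act l.reverse x) = x
  add : ∀ l x y, D.act l (x + y) = D.act l x + D.act l y
  smul : ∀ l (n : ℤ) x, D.act l (n • x) = n • D.act l x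
  cmp : ∀ l β, ∃ β', (D.rt β' = D.act l (D.rt β) ∧ ∀ x, D.ct β' (D.act l x) = D.ct β x) ∨
    (D.rt β' = - D.act l (D.rt β) ∧ ∀ x, D.ct β' (D.act l x) = - D.ct β x)
  exc : ∀ m j β', D.rt β' = - D.act m (D.rt (D.sm j)) →
    ∃ m', m'.length + 1 = m.length ∧ ∀ x, D.act m' x = D.act m (D.s (D.sm j) x)
  tri : ∀ l, (∀ j, ∃ β', D.rt β' = D.act l (D.rt (D.sm j))) → ∀ x, D.act l x = x
  red : ∀ i m, D.Red (i :: m) → ∀ lam, D.Dom lam → 0 ≤ D.ct (D.sm i) (D.act m lam)
  stb : ∀ lam, D.Dom lam → ∀ l, D.act l lam = lam →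
    ∃ l', (∀ x, D.act l' x = D.act l x) ∧ ∀ i ∈ l', D.s (D.sm i) lam = lam

/-- facts on words, part 2 -/
structure Le2F (D : Dat R I X) : Prop where
  lle : ∀ lam, D.Dom lam → ∀ l, D.ell (D.act l lam) ≤ l.length
  mins : ∀ lam, D.Dom lam → ∀ x ∈ D.orb lam, ∃ l, D.act l lam = x ∧ l.length = D.ell x
  unq : ∀ lam, D.Dom lam → ∀ l l', D.act l lam = D.act l' lam → l.length = D.ell (D.act l lam) →
    l'.length = D.ell (D.act l' lam) → ∀ x, D.act l x = D.act l' x
  lng : ∃ l, D.Lng l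
  adm : ∀ lam, ∃ N, D.Adm lam N

/-- Demazure facts -/
structure DemF (D : Dat R I X) (lam : X) (N : ℕ) : Prop where
  dem : ∀ l, D.Red l → D.Dem lam N l = {p | p ∈ D.LS lam N ∧ D.Le (p 0) (D.act l lam)}
  cst : ∀ x ∈ D.orb lam, bw x N ∈ D.LS lam N

/-- facts on the longest element -/
structure XitF (D : Dat R I X) (l0 : List I) (θ : I → I) : Prop where
  cp : ∀ β, ∃ β', D.rt β' = - D.act l0 (D.rt β) ∧ ∀ x, D.ct β' (D.act l0 x) = - D.ct β x
  th : ∀ i, D.rt (D.sm (θ i)) = - D.act l0 (D.rt (D.sm i))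
  thc : ∀ i x, D.ct (D.sm (θ i)) (D.act l0 x) = - D.ct (D.sm i) x
  thth : ∀ i, θ (θ i) = i
  w2 : ∀ x, D.act l0 (D.act l0 x) = x
  rev : ∀ x y, D.Le x y → D.Le (D.act l0 y) (D.act l0 x)

/-- facts on the involution -/
structure XilF (D : Dat R I X) (l0 : List I) (θ : I → I) (lam : X) (N : ℕ) : Prop where
  ls : ∀ p ∈ D.LS lam N, xi (D.act l0) N p ∈ D.LS lam N
  xx : ∀ p ∈ D.LS lam N, xi (D.act l0) N (xi (D.act l0) N p) = p
  xF : ∀ i, ∀ p ∈ D.LS lam N, ∀ q, D.F i N p q →
    D.F (θ i) N (xi (D.act l0) N q) (xi (D.act l0) N p)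
  xm : ∀ i p, D.mn (θ i) N (xi (D.act l0) N p) = D.mn i N p - D.H i p N
  xh : ∀ i p, D.H (θ i) (xi (D.act l0) N p) N = - D.H i p N

/-- the key set `Y_v` -/
def Y (D : Dat R I X) (mu lam : X) (M N : ℕ) (lv : List I) : Set ((ℕ → X) × (ℕ → X)) :=
  {u | u ∈ D.TB mu lam M N ∧ ∃ x : List I, D.Le (D.act x lam) (u.2 (N - 1)) ∧
    D.Le (u.1 0) (D.act x (D.act lv mu))}

end Dat

open Dat (bw xi dl)

/-! ## Jobs -/

/-- Job ORD.  PROOF.
`ss`, `cts`: `s β` is additive and `s β (rt β) = - rt β`; `ct β (s β x) = ct β x - 2 ct β x`.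
`cj`: take `β'` from `Ax.simple i β`: `ct β' (s_i x) = ct β (s_i (s_i x)) = ct β x`, and
`s β' (s_i x) = s_i x - ct β x • s_i (rt β) = s_i (x - ct β x • rt β)`.
`dom`: `ct β` is in the closure of the simple coroots (`ctn`; closure induction), so `0 ≤ ct β lam`;
then `{β | ct β lam < 0}` is empty.
`mon`: let `0 < ct γ x`, `y = s γ x`, `S = {β | ct β x < 0}`, `T = {β | ct β y < 0}`.  For `β` take
`β'` from `Ax.refl γ β` (choose).  Define `f β = β'` if the first alternative holds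
(`rt β' = s γ (rt β)`, `ct β' z = ct β (s γ z)`) and `f β = β` otherwise.  `f` maps `S` to `T`: in the
first case `ct β' y = ct β (s γ (s γ x)) = ct β x < 0`; in the second case `rt β' = - s γ (rt β)`, so
`0 < ct γ (rt β)` by `negr`, so `0 < ct β (rt γ)` by `sign`, and
`ct β y = ct β x - ct γ x * ct β (rt γ) < 0`.  `f` is injective on `S`: two first-type elements:
`s γ` is injective and `rt` is injective; two second-type: clear; `β1` first-type, `β2` second-type,
`f β1 = β2`: `rt β2 = s γ (rt β1)` and for the second type some `rt β2' = - s γ (rt β2) = - rt β1`,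
contradicting `pos`.  `γ ∈ T` (`ct γ y = - ct γ x`), and `γ` is not in `f '' S`: if `γ = β1'` of the
first type then `rt β1 = s γ (rt γ) = - rt γ`, contradicting `pos`; if `γ = β2 ∈ S` then
`ct γ x < 0`, contradiction.  So `ncard S + 1 ≤ ncard T` (`R` is finite).
`up`: by `mon` `ell x < ell (s_i x)`.  Let `T = {β | ct β (s_i x) < 0}`, `S = {β | ct β x < 0}`.
The map `β ↦ β'` of `Ax.simple i β` maps `T \ {sm i}` injectively to `S`
(`ct β' x = ct β (s_i x) < 0`), so `ncard T ≤ ncard S + 1`.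
`ant`: induction on the chain, each step strictly increases `ell` by `mon`.
(Z0) if `y = s β x`, `0 < ct β x`, `β ≠ sm i` then by `cj` `s_i x → s_i y` is a step of `Le`.
`z1`: head induction on `Le x y` (`Relation.ReflTransGen.head_induction_on`), `y` fixed with
`ct_i y ≤ 0`.  Base: `Le (s_i y) y`: if `ct_i y = 0` then `s_i y = y`, otherwise
`0 < ct_i (s_i y)` and `s_i (s_i y) = y` is a step.  Step `x → x1` via `β`, `Le (s_i x1) y`: if
`β = sm i` then `s_i x = x1` and `Le x1 y` is what is needed; otherwise (Z0) and the induction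
hypothesis.
`z2`: induction on `Le x y` from the tail, `x` fixed with `0 ≤ ct_i x`.  Base: `Le x (s_i x)`:
equality or a step.  Step `y1 → y` via `β`, `Le x (s_i y1)`: if `β = sm i` then `s_i y = y1` and
`Le x y1`; otherwise (Z0).
`low`: `x = act l lam`, induction on `l` with `z2`. -/
def S_Ord : Prop := ∀ (R I X : Type) [AddCommGroup X] [Finite R] (D : Dat R I X), D.Ax → D.OrdF

/-- Job CHN.  PROOF.
`dvd`: for a step `y = s β x`: `f y - f x = - ct β x * f (rt β)` and `N ∣ j * ct β x`; sum up.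
`le`: a step is a step of `Le`.  `st`: by `OrdF.up`.
(SG) sign lemma: let `0 < ct β x`, `ell (s β x) = ell x + 1`, `β ≠ sm i`, `0 < ct_i x`.  Then
`0 < ct_i (s β x)`.  Proof: put `y = s β x` and suppose `ct_i y ≤ 0`.  By `cj`,
`s_i y = s β' (s_i x)` with `0 < ct β' (s_i x)`, so `ell (s_i x) < ell (s_i y)` by `mon`; and
`ell (s_i x) = ell x + 1` by `up`.  If `ct_i y = 0` then `s_i y = y` has `ell = ell x + 1`,
contradiction.  If `ct_i y < 0` then `up` for `s_i y` gives `ell y = ell (s_i y) + 1`, so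
`ell (s_i y) = ell x`, contradiction.
(CC) if moreover `N ∣ j * ct β x` then `St N j (s_i x) (s_i y)`: by `up` twice
`ell (s_i y) = ell y + 1 = ell x + 2 = ell (s_i x) + 1`, and `ct β' (s_i x) = ct β x`.
`int`: head induction on `Ch N j x y`, `y` fixed with `ct_i y ≤ 0`.  Base: impossible.  Step
`x → x1` via `β`: if `β = sm i`: `N ∣ j * ct_i x` is part of the step.  Otherwise `0 < ct_i x1` by
(SG), so `N ∣ j * ct_i x1` by induction, and `j * ct_i x1 = j * ct_i x - (j * ct β x) * ct_i (rt β)`.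
`l3`: head induction, `y` fixed.  Base: impossible.  Step `x → x1` via `β`: if `β = sm i` then
`x1 = s_i x` and `Ch N j x1 y` is the claim.  Otherwise `0 < ct_i x1` by (SG), (CC) gives the step
`s_i x → s_i x1`, and the induction hypothesis gives `Ch N j (s_i x1) y`.
`l1`: head induction, `y` fixed with `0 < ct_i y`.  Base: reflexivity.  Step `x → x1` via `β`: if
`β = sm i` then `x1 = s_i x`, `N ∣ j * ct_i x`, and `N ∣ j * (ct_i y - ct_i x)` by `dvd` (for the
whole chain), so `N ∣ j * ct_i y` and `y → s_i y` is a step by `st`; so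
`Ch N j (s_i x) y` followed by this step.  Otherwise (SG), (CC) and the induction hypothesis. -/
def S_Chn : Prop := ∀ (R I X : Type) [AddCommGroup X] [Finite R] (D : Dat R I X),
  D.Ax → D.OrdF → D.ChnF

/-- Job HNT.  PROOF.  Put `c j = ct_i (p j)`, `H (j+1) = H j + c j`.
`cong`: induction on `j`.  `j = 0`: `H 0 = 0`.  `j + 1 < N`: `N ∣ H j - j c_j` gives
`N ∣ H (j+1) - (j+1) c_j`, and `N ∣ (j+1) (c_j - c_{j+1})` by `ChnF.dvd` for
`Ch N (j+1) (p (j+1)) (p j)` with `f = ct_i`.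
`top`: `N ≥ 1`; `cong` for `j = N - 1`: `H N = H (N-1) + c_{N-1}`, so `N ∣ H N - N c_{N-1}`.
`loc`: we have `Ch N j (p j) (p (j-1))`.  If `c j = 0` use `cong`.  If `0 < c j` then
`N ∣ j c_j` by `ChnF.int`; use `cong`.
`le`, `att`: from the definition of `inf'` (`Finset.inf'_le`, `Finset.exists_mem_eq_inf'`).
`le0`: `le` for `j = 0`, `H 0 = 0`.
`mnd`: take `j` from `att`; `j = 0`: `H 0 = 0`; `j = N`: `top`; otherwise `H (j-1) ≥ H j` and
`H (j+1) ≥ H j` give `c (j-1) ≤ 0 ≤ c j`; use `loc`. -/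
def S_Hnt : Prop := ∀ (R I X : Type) [AddCommGroup X] [Finite R] (D : Dat R I X),
  D.Ax → D.ChnF → ∀ (lam : X) (N : ℕ), D.Adm lam N → ∀ p ∈ D.LS lam N, ∀ i, D.HntF i N p

/-- Job FDA.  PROOF.  Put `m = mn`, `c j = ct_i (p j)`, `H (j+1) = H j + c j`.
First part: let `a` be the largest `j ≤ N` with `H j = m` (`att`); `a < N` since `H N ≥ m + N > m`.
Let `b` be the smallest `j > a` with `m + N ≤ H j` (`j = N` is one).
Second part.  Let `MC` hold.
(A) There is no `k` with `a < k ≤ N`, `H k < m + N`, `c (k-1) ≤ 0` and (`k = N` or `0 ≤ c k`):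
`N ∣ H k` by `top` or `loc`, `N ∣ m` and `m < H k < m + N`.
(B) `0 < c j` for `a ≤ j < b`: for `j = a` since `H (a+1) > m = H a`.  Let `a < j < b` and suppose
`c j ≤ 0`.  Let `k` be the smallest index `≥ j+1` with `k = N` or `0 < c k`.  Then `c t ≤ 0` for
`j ≤ t < k`, so `H k ≤ H j < m + N`, contradiction to (A).
(C) `m + N ≤ H j` for `b ≤ j ≤ N`: otherwise let `k` in `[b, N]` be an index with `H k` minimal;
`H k < m + N ≤ H b`, so `k > b`, `c (k-1) ≤ 0` (as `H (k-1) ≥ H k`) and `k = N` or `0 ≤ c k`;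
contradiction to (A).
(D) `H b = m + N`: `c := c (b-1) > 0` by (B), `c ∣ N` by `Adm` (`p (b-1)` is in the orbit).
`N ∣ H (b-1) - (b-1) c` by `cong`, so `c ∣ H (b-1)`, and `c ∣ m + N`.  `H (b-1) < m + N`
(`b - 1 = a`, or by the last condition of `MC`) and `m + N ≤ H b = H (b-1) + c`; so
`0 < m + N - H (b-1) ≤ c` is divisible by `c`, hence equal to `c`.
(E) `q = rf i a b p` is an LS word.  Letters: `s_i (p j)` is in the orbit (word `i :: l`); `q j = 0`
for `j ≥ N` as `b ≤ N`.  Chains: let `j + 1 < N`; we need `Ch N (j+1) (q (j+1)) (q j)`.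
Both `j, j+1` outside `[a,b)`: nothing changes.  Both inside: `ChnF.l1` (`c > 0` by (B)).
`j + 1 = a`: `c a > 0` by (B) and `c (a-1) ≤ 0` since `H (a-1) ≥ m = H a`; use `ChnF.l3`.
`j = b - 1`: we have `Ch N b (p b) (p (b-1))`, and the step `p (b-1) → s_i (p (b-1))` by
`ChnF.st`, as `N ∣ b c` for `c = c (b-1)`: `N ∣ H (b-1) - (b-1) c`, `H b = H (b-1) + c`, and
`N ∣ H b = m + N`. -/
def S_Fda : Prop := ∀ (R I X : Type) [AddCommGroup X] [Finite R] (D : Dat R I X),
  D.Ax → D.OrdF → D.ChnF → ∀ (lam : X) (N : ℕ), D.Adm lam N → ∀ p ∈ D.LS lam N, ∀ i,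
  D.HntF i N p →
  (D.mn i N p + N ≤ D.H i p N → ∃ a b, D.MC i N p a b) ∧
  ∀ a b, D.MC i N p a b → D.FD i N p a b ∧ D.rf i a b p ∈ D.LS lam N

/-- Job PRF.  PROOF.  `ct_i (s_i x) = - ct_i x` (`cts`); so the slope of `rf i a b p` at `j` is
`- c j` for `a ≤ j < b` and `c j` otherwise.  `h1`, `h2`, `h3` by induction on `j` (for `h2` start at
`H a = mn`, for `h3` at `H b = mn + N`: `2 mn - (mn + N) = mn - N = H b - 2 N`).
`m`: all values of the new height function on `0..N` are `≥ mn - N`: for `j ≤ a` they are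
`≥ mn`; for `a ≤ j ≤ b`: `2 mn - H j ≥ mn - N` as `H j ≤ mn + N` (`Ha`, `mid`, `Hb`); for `j ≥ b`
`H j - 2 N ≥ mn - N` by `fin`; and the value at `b` is `mn - N`. -/
def S_Prf : Prop := ∀ (R I X : Type) [AddCommGroup X] (D : Dat R I X),
  D.OrdF → ∀ (i : I) (N : ℕ) (p : ℕ → X) (a b : ℕ), D.FD i N p a b → D.PF i N p a b

/-- Job CRY.  PROOF.  `N > 0` by `Adm`.
`dvm`, `dvh`, `le0`, `leh`: from `HntF`.  `fst`: `H 1 = ct_i (p 0) ≥ mn = 0`.  `lst`:
`H (N-1) ≥ mn = H N = H (N-1) + ct_i (p (N-1))`.  `ex`, `fd`, `mem`: from the hypothesis `hF`.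
`mq`: `PF.m`.  `hq`: `PF.h3` for `j = N`.  `lt`: `FD.fin` for `j = N`.
`f0`: the first letter changes only if `a = 0` (and then `0 < b`); then `mn = H 0 = 0`, and
`0 < ct_i (p 0)` by `slo`.  `fN`: the last letter changes only if `N - 1 < b`, i.e. `b = N`; then
`H N = mn + N`, and `0 < ct_i (p (N-1))` by `slo` (`a ≤ N - 1` as `a < b = N`).
`inc`: the letters in `[a,b)` are replaced by `s_i (p k)` with `0 < ct_i (p k)`, which increases
`ell` (`up`), the others are unchanged, and `[a,b)` is not empty. -/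
def S_Cry : Prop := ∀ (R I X : Type) [AddCommGroup X] [Finite R] (D : Dat R I X),
  D.Ax → D.OrdF → ∀ (lam : X) (N : ℕ), D.Adm lam N →
  (∀ p ∈ D.LS lam N, ∀ i, D.HntF i N p) →
  (∀ p ∈ D.LS lam N, ∀ i, (D.mn i N p + N ≤ D.H i p N → ∃ a b, D.MC i N p a b) ∧
    ∀ a b, D.MC i N p a b → D.FD i N p a b ∧ D.rf i a b p ∈ D.LS lam N) →
  (∀ (i : I) (p : ℕ → X) (a b : ℕ), D.FD i N p a b → D.PF i N p a b) → D.CryF lam N

/-- Job DUA.  PROOF.  `act l (-x) = - act l x`, so `orb (-lam) = - orb lam`; `adm` follows.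
(D1) For a positive root `γ` and `x`: the set `{β | ct β (s γ x) ≠ 0}` has the same cardinality as
`{β | ct β x ≠ 0}`: `β ↦ β'` of `Ax.refl γ β` is injective (if `rt β1' = rt β2'` then
`s γ (rt β1) = ± s γ (rt β2)`, the minus sign is excluded by `pos`), maps the first to the second
(`ct β' x = ± ct β (s γ x)`), and vice versa (replace `x` by `s γ x`; or: an injective map of the
finite set `R` to itself is bijective).
(D2) `ell x + ell (-x) = ncard {β | ct β x ≠ 0}` (`ct β (-x) = - ct β x`).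
(D3) `St N j x y` implies `St N j (-y) (-x)`: same `β`: `ct β (-y) = ct β x > 0`, `s β (-y) = -x`,
`ell (-x) = c - ell x`, `ell (-y) = c - ell y` with the same `c` by (D1), (D2), so
`ell (-x) = ell (-y) + 1`.  So `Ch N j x y` implies `Ch N j (-y) (-x)`.
(D4) `St N j x y` implies `St N (N - j) x y` for `j ≤ N`: `N ∣ j t` iff `N ∣ (N - j) t`.  So the
same for `Ch`.
`ls`: letters: clear.  Chains: let `j + 1 < N`; `Ch N (N-1-j) (p (N-1-j)) (p (N-2-j))` is the
condition for `p` at `N-2-j`; by (D3) and (D4) `Ch N (j+1) (- p (N-2-j)) (- p (N-1-j))`, and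
`dl N p (j+1) = - p (N-2-j)`, `dl N p j = - p (N-1-j)`.
`dd`: for `j < N`, `N-1-(N-1-j) = j`; for `j ≥ N` both are `0`.
`hd`: induction on `j` (`H (N-j) = H (N-j-1) + ct_i (p (N-1-j))`).
`md`: `inf'` over `j ≤ N` of `H (N-j) - H N` (all values `≥ mn - H N`, with equality somewhere). -/
def S_Dua : Prop := ∀ (R I X : Type) [AddCommGroup X] [Finite R] (D : Dat R I X),
  D.Ax → D.OrdF → ∀ (lam : X) (N : ℕ), D.Adm lam N → D.DuaF lam N

/-- Job DUF.  PROOF.
`dual` (for every `lam` with `Adm lam N`).  Let `F i N p q`, by `fd` with data `FD i N p a b`,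
`q = rf i a b p`; put `m = mn p`, `H = H i p`.  By `PF`: `H q j = H j` (`j ≤ a`),
`2 m - H j` (`a ≤ j ≤ b`), `H j - 2 N` (`j ≥ b`), `mn q = m - N`.  `q` is an LS word (`mem`).  By
`DuaF` (`hd`, `md` hold for all words) `H (dl q) j = H q (N-j) - H q N` and
`mn (dl q) = m - N - H q N`.
We show `MC i N (dl q) (N-b) (N-a)` and `dl p = rf i (N-b) (N-a) (dl q)`.
`N-b < N-a ≤ N`.  `H (dl q) (N-b) = H q b - H q N = m - N - H q N`.  For `N-b < j ≤ N`:
`H q (N-j) > m - N`, as `N - j < b`: for `N-j ≤ a` it is `H (N-j) ≥ m`, for `a ≤ N-j < b` it is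
`2 m - H (N-j) > m - N` (`Ha`, `mid`).  `H (dl q) (N-a) = H q a - H q N = m - H q N =
mn (dl q) + N`.  For `N-b < j < N-a`: `a < N-j < b`, `H q (N-j) = 2 m - H (N-j) < m` by `aft`.
Letters: for `j < N`: `N-b ≤ j < N-a` iff `a ≤ N-1-j < b`; then `dl q j = - s_i (p (N-1-j))` and
`s_i (dl q j) = - p (N-1-j) = dl p j`; otherwise `dl q j = - p (N-1-j)`.  For `j ≥ N` both are
`0` (and `j` is not in `[N-b, N-a)`).
`pre`: let `p` be in `LS lam N`, `mn i N p < 0`; then `mn i N p ≤ - N` (`dvm`).  `dl p` is in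
`LS (-lam) N`, `mn (dl p) = mn p - H p N`, `H (dl p) N = H p 0 - H p N = - H p N`, so
`mn (dl p) + N ≤ H (dl p) N` and `ex` for `-lam` gives `r` with `F i N (dl p) r`, `r` in
`LS (-lam) N`.  By `dual` for `-lam`: `F i N (dl r) (dl (dl p))`, and `dl (dl p) = p`, `dl r` is in
`LS (- -lam) N = LS lam N`. -/
def S_Duf : Prop := ∀ (R I X : Type) [AddCommGroup X] [Finite R] (D : Dat R I X),
  D.Ax → D.OrdF → ∀ (N : ℕ),
  (∀ (i : I) (p : ℕ → X) (a b : ℕ), D.FD i N p a b → D.PF i N p a b) →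
  (∀ lam, D.Adm lam N → D.CryF lam N ∧ D.DuaF lam N) → ∀ lam, D.Adm lam N → D.Cr2F lam N

/-- Job LE1.  PROOF.
`app`, `rev`, `rev'`, `add`, `smul`: induction on the word (`s_i` is an additive involution).
`cmp`: induction on `l` with `Ax.refl (sm i)` (if `rt β' = ± act l (rt β)`,
`ct β' (act l x) = ± ct β x`, take `β''` for `s_i` and `β'`:
`rt β'' = ± s_i (rt β')`, `ct β'' (s_i y) = ± ct β' y`, `y = act l x`).
`exc`: induction on `m`, for all `β'`.  `m = []`: contradicts `pos`.  `m = i :: m1`: take `β1` from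
`cmp m1 (sm j)`.  If `rt β1 = - act m1 (rt (sm j))`: the induction hypothesis gives `m1'`; take
`m' = i :: m1'`.  If `rt β1 = act m1 (rt (sm j))` and `ct β1 (act m1 x) = ct (sm j) x`:
`rt β' = - s_i (rt β1)`; if `β1 ≠ sm i`, `Ax.simple` gives `rt β1' = s_i (rt β1) = - rt β'`,
contradicting `pos`; so `β1 = sm i`.  Take `m' = m1`:
`act m1 (s_j x) = act m1 x - ct_j x • rt β1 = act m1 x - ct β1 (act m1 x) • rt β1 = s_i (act m1 x)`,
so `act (i :: m1) (s_j x) = s_i (s_i (act m1 x)) = act m1 x`.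
`tri`: take `l'` of minimal length with `act l' = act l` (pointwise).  If `l' = []` we are done.
Otherwise `l' = m ++ [j]`, and `rt β' = act l (rt (sm j)) = act m (s_j (rt (sm j))) =
- act m (rt (sm j))`; `exc` gives `m'` shorter than `m` with `act m' x = act m (s_j x) = act l' x`,
contradiction.
`red`: take `β'` from `cmp m.reverse (sm i)`.  If `rt β' = - act m.reverse (rt (sm i))` then `exc`
gives `m'` with `m'.length + 1 = m.length` and `act m' x = act m.reverse (s_i x)`.  Then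
`act m' (act (i :: m) y) = act m.reverse (s_i (s_i (act m y))) = y`, so
`act (i :: m) y = act m'.reverse y` and `m'.reverse` is shorter than `i :: m`, contradicting
`Red`.  So `ct β' (act m.reverse x) = ct_i x` for all `x`; take `x = act m lam`:
`ct_i (act m lam) = ct β' lam ≥ 0` by `OrdF.dom`.
`stb`: it suffices to treat words `l` of minimal length for their action; induction on the length.
`l = []`: clear.  `l = m ++ [j]`: take `β'` from `cmp m (sm j)`; the negative case is excluded by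
`exc` and minimality, as `act m' x = act m (s_j x) = act l x`.  So `ct β' (act m x) = ct_j x`; take
`x = s_j lam`: `act m (s_j lam) = act l lam = lam`, so `0 ≤ ct β' lam = ct_j (s_j lam) = - ct_j lam
≤ 0`.  So `ct_j lam = 0`, `s_j lam = lam`, `act m lam = lam`; `m` is again of minimal length for its
action; by induction `m''` for `m`, and take `m'' ++ [j]`. -/
def S_Le1 : Prop := ∀ (R I X : Type) [AddCommGroup X] [Finite R] (D : Dat R I X),
  D.Ax → D.OrdF → D.LenF

/-- Job LE2.  PROOF.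
`lle`: induction on `l`: `ell lam = 0` by `dom`; `ell (s_i y) ≤ ell y + 1`: by `up` if
`0 < ct_i y`; `s_i y = y` if `ct_i y = 0`; if `ct_i y < 0`, `up` for `s_i y` gives
`ell y = ell (s_i y) + 1`.
`mins`: strong induction on `ell x`.  If `0 ≤ ct_i x` for all `i`, then `ell x = 0` by `dom`, and
`Le lam x` (`low`) with `ant` gives `x = lam`; take `l = []`.  Otherwise `ct_i x < 0` for some `i`;
`y = s_i x` is in the orbit and `ell x = ell y + 1` by `up`; take `i :: l` with `l` for `y`.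
`unq`: for a word `m` let `NI m = {β | ∃ β', rt β' = - act m.reverse (rt β)}`.  (1)
`ncard (NI m) ≤ m.length`: induction: `NI (i :: m)`: `act (i :: m).reverse (rt β) =
act m.reverse (s_i (rt β))`; for `β ≠ sm i` in it take `β''` of `Ax.simple i β`; it is in `NI m`, and
`β ↦ β''` is injective; so `ncard (NI (i :: m)) ≤ 1 + ncard (NI m)`.  (2) With
`x = act l lam`: `{β | ct β x < 0} ⊆ NI l`: take `β'` from `cmp l.reverse β`; in the
first case `ct β' (act l.reverse x) = ct β x`, i.e. `ct β' lam = ct β x < 0`, contradicting `dom`.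
(3) So if `l.length = ell x` then `NI l = {β | ct β x < 0}` (finite sets, cardinalities).  The
same for `l'`, so `NI l = NI l'`.  (4) `u = l.reverse ++ l'` maps every simple root to a positive
root: take `β` from `cmp l' (sm j)`.  If `rt β = act l' (rt (sm j))`: then
`act l'.reverse (rt β) = rt (sm j)` and `β` is not in `NI l'` (`pos`), so not in `NI l`, so by
`cmp l.reverse β` there is `β'` with `rt β' = act l.reverse (rt β) = act u (rt (sm j))`.  If
`rt β = - act l' (rt (sm j))`: then `- act l'.reverse (rt β) = rt (sm j)`, so `β` is in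
`NI l' = NI l`, so there is `β'` with `rt β' = - act l.reverse (rt β) = act u (rt (sm j))`.  (5) By
`tri`, `act l.reverse (act l' x) = x` for all `x`, so `act l' x = act l x`.
`lng`: let `δ = ∑ β, rt β`.  `s_i δ = δ - 2 • rt (sm i)`: `s_i` permutes the other positive roots
(`Ax.simple`; injective on a finite set) and maps `rt (sm i)` to its negative.  Apply `ct_i`:
`- ct_i δ = ct_i δ - 4`, so `ct_i δ = 2`.  `0 < ct β δ` for all `β`: every element `f` of the closure
in `ctn` is `0` or has `0 < f δ`, and `ct β ≠ 0` by `two`.  Let `l` be a word with `ell (act l δ)`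
maximal (bounded by `Nat.card R`).  Then `ct_i (act l δ) ≤ 0` for all `i` (`up`), so
`ct β (act l δ) ≤ 0` for all `β` (`ctn`).  Take `l.reverse`: for `β` take `β'` from
`cmp l.reverse β`; if `ct β' (act l.reverse x) = ct β x` for all `x` then
`0 < ct β' δ = ct β (act l δ) ≤ 0`; so `rt β' = - act l.reverse (rt β)`.
`adm`: `N = ∏ β, (if ct β lam = 0 then 1 else (ct β lam).natAbs)`.  For `x = act l lam` and `β` take
`β'` from `cmp l.reverse β`: `ct β x = ± ct β' lam`. -/
def S_Le2 : Prop := ∀ (R I X : Type) [AddCommGroup X] [Finite R] (D : Dat R I X),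
  D.Ax → D.OrdF → D.LenF → D.Le2F

/-- Job DEM.  PROOF.  `cst`: `Ch` is reflexive.
`dem`: induction on `l`; if `i :: m` is reduced then `m` is reduced.
`l = []`: `bw lam N` is in `LS lam N` by `cst` and its letter `0` is `lam` (`N > 0`).  Conversely let
`p` be in `LS lam N` with `Le (p 0) lam`.  `Le lam (p 0)` by `low`, so `p 0 = lam` by `ant`.  By
induction `p j = lam` for `j < N`: `Le (p (j+1)) (p j)` by `ChnF.le`, and `Le lam (p (j+1))`.  So
`p = bw lam N`.
`l = i :: m`: let `z = act m lam`, `y = act (i :: m) lam = s_i z`; `0 ≤ ct_i z` by `LenF.red`; so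
`Le z y` and `ct_i y ≤ 0`.
⊆: let `p'` be in `Dem m`, so `p'` in `LS lam N` and `Le (p' 0) z`, so `Le (p' 0) y`.  Along a chain
of `F i N` steps the property (in `LS lam N` and `Le (· 0) y`) is preserved: by `f0` the first
letter is unchanged or becomes `s_i (p 0)`, and `Le (s_i (p 0)) y` by `z1`.
⊇: let `p` be in `LS lam N` with `Le (p 0) y`.  Claim: there is `p'` in `LS lam N` with
`ReflTransGen (F i N) p' p`, `mn i N p' = 0` and `Le (p' 0) (p 0)`.  Induction on the natural number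
`- mn i N p / N` (`dvm`, `le0`): if `mn i N p < 0`, `Cr2F.pre` gives `p1` with `F i N p1 p`,
`mn p = mn p1 - N` (`mq`), and `Le (p1 0) (p 0)` by `f0`.  By `fst` `0 ≤ ct_i (p' 0)`, and
`Le (p' 0) y`, so `Le (p' 0) (s_i y) = Le (p' 0) z` by `z2`, so `p'` is in `Dem m`. -/
def S_Dem : Prop := ∀ (R I X : Type) [AddCommGroup X] [Finite R] (D : Dat R I X),
  D.Ax → D.OrdF → D.ChnF → D.LenF → ∀ (lam : X) (N : ℕ), D.Dom lam → D.Adm lam N →
  D.CryF lam N → D.Cr2F lam N → D.DemF lam N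

/-- Job XIT.  PROOF.  Let `w = act l0`, `τ x = - w x`, additive and injective.
`cp`: take `β'` from `cmp l0 β`; the first case contradicts `Lng` and `pos`.  Write `β' = t β`:
`rt (t β) = τ (rt β)`, `ct (t β) (w x) = - ct β x`.  `t` is injective, hence bijective (`R` finite).
`θ`: fix `i`.  By `rtn`, `rt (t (sm i)) = ∑ j, n j • rt (sm j)` with `n : I →₀ ℕ`.  For every `j` let
`γ j` be the positive root with `t (γ j) = sm j`, and `rt (γ j) = ∑ k, c j k • rt (sm k)` with
`c j : I →₀ ℕ`; `c j ≠ 0` as `rt (γ j) ≠ 0` (`two`).  As `τ (rt (γ j)) = rt (sm j)` and `τ` is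
injective: `rt (sm i) = ∑ j, n j • rt (γ j) = ∑ j k, n j * c j k • rt (sm k)`.  By linear
independence `∑ j, n j * c j k = 1` for `k = i` and `0` otherwise.  Summing over `k`:
`∑ j, n j * (∑ k, c j k) = 1` with `∑ k, c j k ≥ 1`, so `∑ j, n j = 1` (it is not `0`), so
`n = single j 1` for some `j`, and `rt (t (sm i)) = rt (sm j)`, `t (sm i) = sm j`; put `θ i = j`.
This gives `th` and `thc`.
`w2`: `act (l0 ++ l0)` maps every simple root to a positive root (apply `Lng` twice); use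
`LenF.tri`.  `thth`: `rt (sm (θ (θ i))) = w (w (rt (sm i))) = rt (sm i)`; `rt` and `sm` are
injective (`ind.injective`).
`rev`: for a step `y = s β x`, `0 < ct β x`: `ct (t β) (w y) = - ct β y = ct β x > 0` and
`s (t β) (w y) = w y - ct β x • rt (t β) = w y + ct β x • w (rt β) = w x`.  So `Le (w y) (w x)`. -/
def S_Xit : Prop := ∀ (R I X : Type) [AddCommGroup X] [Finite R] (D : Dat R I X),
  D.Ax → D.OrdF → D.LenF → ∀ l0, D.Lng l0 → ∃ θ : I → I, D.XitF l0 θ

/-- Job XIL.  PROOF.  Let `w = act l0`, `τ x = - w x`, `t β` the root of `XitF.cp`: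
`rt (t β) = τ (rt β)`, `ct (t β) (τ x) = ct β x`.  Then `s (t β) (τ x) = τ (s β x)`;
`ell (τ x) = ell x` (`t` is an injective, hence bijective map of the finite set `R`); so
`St N j x y` implies `St N j (τ x) (τ y)`, and the same for `Ch`.  For a simple index
`ct (sm (θ i)) (τ x) = ct (sm i) x` and `s (sm (θ i)) (τ x) = τ (s (sm i) x)`.
For every word `p`: `xi w N p = fun j => τ (dl N p j)`.
`ls`: `dl N p` is in `LS (-lam) N`; its letters are `act l (-lam)`, and
`τ (act l (-lam)) = w (act l lam)` is in the orbit of `lam` (word `l0 ++ l`).  Chains by the above.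
`xx`: `N-1-(N-1-j) = j` and `w2`; beyond `N` both are `0`.
(T) For every word `r`: `H (θ i) (τ ∘ r) j = H i r j`, hence `mn (θ i) N (τ ∘ r) = mn i N r`,
`MC (θ i) N (τ ∘ r) a b ↔ MC i N r a b`, `rf (θ i) a b (τ ∘ r) = τ ∘ rf i a b r`; so `F i N r r'`
implies `F (θ i) N (τ ∘ r) (τ ∘ r')`.
`xF`: `Cr2F.dual` gives `F i N (dl q) (dl p)`; use (T).
`xm`: (T) and `DuaF.md`.  `xh`: (T) and `DuaF.hd` for `j = N` (`H 0 = 0`). -/
def S_Xil : Prop := ∀ (R I X : Type) [AddCommGroup X] [Finite R] (D : Dat R I X),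
  D.Ax → D.OrdF → D.LenF → ∀ (l0 : List I) (θ : I → I), D.XitF l0 θ → ∀ N : ℕ,
  (∀ lam, D.Adm lam N → D.DuaF lam N ∧ D.Cr2F lam N) → ∀ lam, D.Adm lam N → D.XilF l0 θ lam N

/-- Job YCL.  PROOF.  It suffices to treat one step `TF i M N u u'` with `u, u'` in `TB`, in both
directions.  By `dvm`, `dvh`: `eps * M = - mn`, `phi * N = H N - mn` exactly, both `≥ 0`.  Let `x` be
the witness, `z = act x lam`, `y = act x (act lv mu)`; the witness `i :: x` has `s_i z`, `s_i y`.
FORWARD (`u ∈ Y`).  Case A: `eps u.1 < phi u.2`, `u'.1 = u.1`, `F i N u.2 u'.2`: by `fN` the last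
letter is unchanged or increases (`Le`), same `x`.  Case B: `phi u.2 ≤ eps u.1`, `F i M u.1 u'.1`,
`u'.2 = u.2`: by `f0` either the first letter is unchanged (same `x`), or `mn i M u.1 = 0`,
`0 < ct_i (u.1 0)`, `u'.1 0 = s_i (u.1 0)`; then `eps u.1 = 0`, so `phi u.2 = 0`, so
`H i u.2 N = mn i N u.2`, so `ct_i (u.2 (N-1)) ≤ 0` by `lst`.  By `z1`
`Le (s_i z) (u.2 (N-1))`.  If `ct_i y ≤ 0`, then `Le (s_i (u.1 0)) y` by `z1`: same `x`.  If
`0 < ct_i y`, then `Le (u.1 0) (s_i y)` and `ct_i (s_i y) < 0`, so `Le (s_i (u.1 0)) (s_i y)` by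
`z1`: witness `i :: x`.
BACKWARD (`u' ∈ Y`, witness `x`).  Case A: `eps u.1 < phi u.2`, `u'.1 = u.1`, `F i N u.2 u'.2`: by
`fN` either the last letter is unchanged (same `x`), or `H i u.2 N = mn i N u.2 + N` (so
`phi u.2 = 1`, `eps u.1 = 0`, `mn i M u.1 = 0`), `0 < ct_i (u.2 (N-1))` and
`u'.2 (N-1) = s_i (u.2 (N-1))`.  By `fst` `0 ≤ ct_i (u.1 0)`, so `Le (u.1 0) (s_i y)` by `z2`.  We
know `Le z (u'.2 (N-1))`.  If `0 ≤ ct_i z` then `Le z (s_i (u'.2 (N-1))) = Le z (u.2 (N-1))` by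
`z2`: same `x`.  If `ct_i z < 0` then `Le (s_i z) z` (a step), so
`Le (s_i z) (u'.2 (N-1))`, `0 ≤ ct_i (s_i z)`, so `Le (s_i z) (u.2 (N-1))` by `z2`: witness
`i :: x`.  Case B: `F i M u.1 u'.1`, `u'.2 = u.2`: by `f0` `Le (u.1 0) (u'.1 0)`: same `x`. -/
def S_Ycl : Prop := ∀ (R I X : Type) [AddCommGroup X] (D : Dat R I X),
  D.OrdF → ∀ (mu lam : X) (M N : ℕ), 0 < M → 0 < N → D.CryF mu M → D.CryF lam N →
  ∀ lv u u', D.Con mu lam M N u u' → (u ∈ D.Y mu lam M N lv ↔ u' ∈ D.Y mu lam M N lv)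

/-- Job HLF.  PROOF.  Let `w0 = act l0`, `L = (xi w0 M (bw mu M), xi w0 N p)`, an element of `TB`
by `XilF.ls`.  `L.1 0 = w0 mu`, `L.2 (N-1) = w0 (p 0)`.  Let `Le (p 0) (act lw lam)`.  `L` is in
`Y (lw.reverse)` with the witness `x = l0 ++ lw`: `act x lam = w0 (act lw lam)`, and
`Le (w0 (act lw lam)) (w0 (p 0))` by `XitF.rev`; `act x (act lw.reverse mu) = w0 mu` by `rev'`.
So by the hypothesis `hY` `(c, bw lam N)` is in `Y (lw.reverse)`: there is `x` with
`Le (act x lam) lam` and `Le (c 0) (act x z)`, `z = act lw.reverse mu`.  `Le lam (act x lam)` by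
`low`, so `act x lam = lam` by `ant` (twice).  By `LenF.stb` we may assume that all letters of `x`
fix `lam`.  Let `i` be such a letter: `s_i lam = lam`, so `ct_i lam = 0` (`ct_i (s_i lam) = - ct_i
lam`), so `H i (bw lam N) j = 0` for all `j ≤ N`, `mn = 0`, `phi = 0`.  Claim
`mn i M c = 0`: otherwise `mn i M c < 0` (`le0`) and `Cr2F.pre` gives `c'` in `LS mu M` with
`F i M c' c`, `mn c' = mn c + M ≤ 0`, so `eps c' ≥ 0 = phi (bw lam N)` and
`TF i M N (c', bw lam N) (c, bw lam N)`, contradicting `HW`.  So `0 ≤ ct_i (c 0)` by `fst`.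
Now remove the letters of `x` one after the other: `Le (c 0) (s_i (act x' z))` gives
`Le (c 0) (act x' z)` by `z2` and `ss`.  So `Le (c 0) z`. -/
def S_Hlf : Prop := ∀ (R I X : Type) [AddCommGroup X] [Finite R] (D : Dat R I X),
  D.Ax → D.OrdF → D.LenF → ∀ (l0 : List I) (θ : I → I), D.XitF l0 θ →
  ∀ (mu lam : X) (M N : ℕ), 0 < M → 0 < N → D.Dom lam → D.Dom mu →
  D.CryF mu M → D.Cr2F mu M → D.CryF lam N → D.DemF lam N → D.DemF mu M →
  D.XilF l0 θ lam N → D.XilF l0 θ mu M →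
  (∀ lv u u', D.Con mu lam M N u u' → (u ∈ D.Y mu lam M N lv ↔ u' ∈ D.Y mu lam M N lv)) →
  ∀ p ∈ D.LS lam N, ∀ c ∈ D.LS mu M, D.HW mu lam M N (c, bw lam N) →
  D.Con mu lam M N (c, bw lam N) (xi (D.act l0) M (bw mu M), xi (D.act l0) N p) →
  ∀ lw, D.Le (p 0) (D.act lw lam) → D.Le (c 0) (D.act lw.reverse mu)

/-- Job EXC.  PROOF.  For `u` in `TB` let `S u = ∑ k<M, ell (u.1 k) + ∑ k<N, ell (u.2 k)`; a step
`TF` strictly increases it (`inc`).  Claim: every `u` in `TB` is `Con` to a `HW` element: strong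
induction on `S u`: if `u` is not `HW` there is `u'` in `TB` with `TF i M N u' u`, `S u' < S u`.
Let `u` be `HW`; we show `u.2 = bw lam N`.  Let `i` be arbitrary; suppose `mn i N u.2 < 0`.
`pre` gives `q'` in `LS lam N` with `F i N q' u.2`; `phi q' = phi u.2 + 1` (`mq`, `hq`).  If
`eps u.1 ≤ phi u.2` then `TF i M N (u.1, q') u` (first alternative), contradiction.  If
`phi u.2 < eps u.1` then `eps u.1 > 0` (`phi ≥ 0` by `leh`), `mn i M u.1 < 0`, `pre` gives `c'` with
`F i M c' u.1`, `eps c' = eps u.1 - 1 ≥ phi u.2`, so `TF i M N (c', u.2) u` (second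
alternative), contradiction.  So `mn i N u.2 = 0` for all `i`, and `0 ≤ ct_i (u.2 0)` by `fst`: so
`u.2 0` is dominant, `ell (u.2 0) = 0` by `dom`, and `Le lam (u.2 0)` (`low`) with `ant` gives
`u.2 0 = lam`.  So `u.2` is in `Dem lam N []` by `DemF.dem` (`Red []` is clear), i.e.
`u.2 = bw lam N`. -/
def S_Exc : Prop := ∀ (R I X : Type) [AddCommGroup X] [Finite R] (D : Dat R I X),
  D.Ax → D.OrdF → ∀ (mu lam : X) (M N : ℕ), 0 < M → 0 < N → D.Dom lam →
  D.CryF mu M → D.Cr2F mu M → D.CryF lam N → D.Cr2F lam N → D.DemF lam N →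
  ∀ v ∈ D.TB mu lam M N, ∃ c ∈ D.LS mu M, D.HW mu lam M N (c, bw lam N) ∧
    D.Con mu lam M N (c, bw lam N) v

/-- Job THE.  PROOF.  Write `ξ` for `xi (act l0) _`, `Θ u = (ξ u.2, ξ u.1)`.  `Θ` maps
`TB mu lam M N` to `TB lam mu N M` (`XilF.ls`).  By `xm`, `xh`: `eps (θ i) (ξ p) = phi i p` and
`phi (θ i) (ξ p) = eps i p`.  Claim: `TF i M N u u'` implies `TF (θ i) N M (Θ u') (Θ u)` for `u, u'`
in `TB`.  Case A: `eps u.1 < phi u.2`, `u'.1 = u.1`, `F i N u.2 u'.2`: `phi u'.2 = phi u.2 - 1` (`mq`,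
`hq`), so `phi (θ i) (Θ u').2 = eps i u.1 ≤ phi i u'.2 = eps (θ i) (Θ u').1`, and
`F (θ i) N (ξ u'.2) (ξ u.2)` by `xF`: second alternative.  Case B: `phi u.2 ≤ eps u.1`,
`F i M u.1 u'.1`, `u'.2 = u.2`: `eps u'.1 = eps u.1 + 1`, so
`eps (θ i) (Θ u').1 = phi i u.2 < eps i u'.1 = phi (θ i) (Θ u').2`, and
`F (θ i) M (ξ u'.1) (ξ u.1)`: first alternative.  `Con` is generated by these steps. -/
def S_The : Prop := ∀ (R I X : Type) [AddCommGroup X] (D : Dat R I X),
  ∀ (l0 : List I) (θ : I → I) (mu lam : X) (M N : ℕ), 0 < M → 0 < N →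
  D.CryF mu M → D.CryF lam N → D.XilF l0 θ lam N → D.XilF l0 θ mu M →
  ∀ u u', D.Con mu lam M N u u' →
  D.Con lam mu N M (xi (D.act l0) N u.2, xi (D.act l0) M u.1)
    (xi (D.act l0) N u'.2, xi (D.act l0) M u'.1)

/-- all the facts for one weight -/
structure Dat.AllF {R I X : Type} [AddCommGroup X] (D : Dat R I X) (l0 : List I) (θ : I → I)
    (lam : X) (N : ℕ) : Prop where
  dom : D.Dom lam
  adm : D.Adm lam N
  cry : D.CryF lam N
  cr2 : D.Cr2F lam N
  dem : D.DemF lam N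
  xil : D.XilF l0 θ lam N

/-- Job FIN (the theorem for data).  PROOF.
(K) Let `Key lam N p l` with `p` in `LS lam N`.  Then `act l lam = p 0` and
`l.length = ell (p 0)`.  Proof: `mins` gives `l1` with `act l1 lam = p 0`, `l1.length = ell (p 0)`;
`l1` is reduced (if `act l' = act l1` then `ell (p 0) = ell (act l' lam) ≤ l'.length` by `lle`); `p`
is in `Dem l1` by `dem`; so `Dem l ⊆ Dem l1` by `Key`.  `bw (act l lam) N` is in `LS lam N` (`cst`)
and in `Dem l`, so in `Dem l1`: `Le (act l lam) (p 0)`.  And `Le (p 0) (act l lam)` as `p` is in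
`Dem l`.  By `ant` `act l lam = p 0`.  By the last part of `Key`, `l.length ≤ l1.length = ell (p 0)`,
and `ell (p 0) ≤ l.length` by `lle`.
(1) Existence of the key: `l1` above: if `l'` is reduced and `p` in `Dem l'` then
`Le (p 0) (act l' lam)` and `Dem l1 ⊆ Dem l'` by transitivity; the last part by `lle`.  Uniqueness:
(K) and `unq`.
(2) By `S_Exc` for `v = (ξ (bw mu M), ξ p)`.
(3) Let `lw`, `lv` be keys of `p`, `c`.  By (K) `act lw lam = p 0`, `act lv mu = c 0`,
`lw.length = ell (p 0)`, `lv.length = ell (c 0)`.  By `S_Hlf`: `Le (c 0) (act lw.reverse mu)`.  By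
`S_The` and `xx`, `Con lam mu N M (ξ (bw lam N), ξ c) (p, bw mu M)`, so by `S_Hlf` with the roles
exchanged (and symmetry of `Con`) `Le (p 0) (act lv.reverse lam)`.  Then
`lw.length = ell (p 0) ≤ ell (act lv.reverse lam) ≤ lv.length = ell (c 0) ≤
ell (act lw.reverse mu) ≤ lw.length` (`ant` gives `ell` monotone; `lle`).  So all are equal, by
`ant` `p 0 = act lv.reverse lam`, `lv.reverse.length = ell (act lv.reverse lam)`, and `unq` gives
`act lw x = act lv.reverse x` for all `x`.  So `act lv (act lw x) = x` and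
`act lv x = act lv (act lw (act lw.reverse x)) = act lw.reverse x`. -/
def S_Fin : Prop := S_Ycl → S_Hlf → S_Exc → S_The →
  ∀ (R I X : Type) [AddCommGroup X] [Finite R] (D : Dat R I X),
  D.Ax → D.OrdF → D.LenF → D.Le2F → ∀ (l0 : List I) (θ : I → I), D.XitF l0 θ →
  ∀ (lam mu : X) (N M : ℕ), D.AllF l0 θ lam N → D.AllF l0 θ mu M →
  (∀ p ∈ D.LS lam N, ∃ l, D.Key lam N p l ∧ ∀ l', D.Key lam N p l' → ∀ x, D.act l' x = D.act l x) ∧
  (∀ p ∈ D.LS lam N, ∃ c ∈ D.LS mu M, D.HW mu lam M N (c, bw lam N) ∧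
    D.Con mu lam M N (c, bw lam N) (xi (D.act l0) M (bw mu M), xi (D.act l0) N p)) ∧
  (∀ p ∈ D.LS lam N, D.HW lam mu N M (p, bw mu M) → ∀ c ∈ D.LS mu M,
    D.HW mu lam M N (c, bw lam N) →
    D.Con mu lam M N (c, bw lam N) (xi (D.act l0) M (bw mu M), xi (D.act l0) N p) →
    ∀ lw lv, D.Key lam N p lw → D.Key mu M c lv → ∀ x, D.act lv x = D.act lw.reverse x)

/-- the data of a root datum with a base: positive roots, their coroots, simple roots -/
def dat {ι X Y : Type} [AddCommGroup X] [AddCommGroup Y] (P : RootPairing ι ℤ X Y) (b : P.Base) :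
    Dat {i : ι // b.IsPos i} b.support X where
  rt β := P.root β
  ct β := P.coroot' β
  sm i := ⟨i, RootPairing.Base.isPos_of_mem_support i.2⟩

/-- Job ROO.  PROOF.  `P.IsCrystallographic` holds as the coefficient ring is `ℤ` (give the instance
first; `P.IsValuedIn ℤ`, `algebraMap ℤ ℤ = id`).  Write `k = P.reflectionPerm γ β`:
`P.root k = P.reflection γ (P.root β)` and `P.coroot' k x = P.coroot' β (P.reflection γ x)`
(`RootPairing.root_reflectionPerm`, `coroot_reflectionPerm`, `reflection_apply`; check that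
`(dat P b).s γ x = P.reflection γ x`).
`two`: `P.root_coroot_two`.  `inj`: `P.root` is an embedding.
`refl`: if `k` is positive take `k`, otherwise take `-k` (`P.indexNeg`;
`IsPos.neg_iff_not`; `root (-k) = - root k`, `coroot (-k) = - coroot k`).
`simple`: `IsPos.reflectionPerm` (Mathlib) shows that `k` is positive for simple `γ ≠ β`; `k ≠ γ`, as
`P.root k = P.root γ` would give `P.root β = - P.root γ`, contradicting `pos`.
`sign`: `P.zero_lt_pairingIn_iff'` (file `Finite/CanonicalBilinear`), `pairingIn ℤ` over `ℤ` is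
`pairing`.
`pos`, `negr`: heights (`b.height`, `IsPos` means `0 < b.height i`): `root β' = - root β` gives
`β' = -β`, and `IsPos.neg_iff_not`.  For `negr`: `root β' = n • root γ - root β` with
`n = ct γ (rt β)`, `height_sub`/`height_add_zsmul` give `height β' = n * height γ - height β`; if
`n ≤ 0` this is negative.  (Apply `height_add_zsmul` to `-β`, or to `root β = n root γ - root β'`.)
`rtn`: `IsPos.induction_on_add` (simple roots are in the closure; sums).
`ctn`: first show: for all positive `i` also `b.flip.IsPos i`, by `IsPos.induction_on_reflect` with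
the predicate `p i := (b.IsPos i ↔ b.flip.IsPos i)`: for simple `i` both hold; for
`reflectionPerm j i`, `j` simple: if `i = j` it is `-j`, both fail; if `i = -j` it is `j`, both
hold; otherwise `IsPos.reflectionPerm` for `b` and for `b.flip` (also applied to the reflected root,
as the reflection is an involution) shows that both sides are unchanged.  Then apply `rtn` for
`P.flip`, `b.flip`.  (`ct β = P.toLinearMap.flip (P.coroot β)`: map the closure by this linear map.)
`ind`: `b.linearIndepOn_root`. -/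
def S_Roo : Prop := ∀ (ι X Y : Type) [AddCommGroup X] [AddCommGroup Y] [Finite ι]
  (P : RootPairing ι ℤ X Y) [P.IsReduced] (b : P.Base), (dat P b).Ax

end Pool.Agent.Q55.KY
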